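import Mathlib
import Pool.Agent.Mg.Fe7f0cc.G204ae6

section

/-! A verified contraction test for polynomial systems. -/

namespace Pool.Agent.MP_e7f0cc_co

inductive Ex
  | var (k : ℕ)
  | add (a b : Ex)
  | sub (a b : Ex)
  | mul (a b : Ex)

namespace Ex

def ev (x : ℕ → ℝ) : Ex → ℝ
  | var k => x k
  | add a b => a.ev x + b.ev x
  | sub a b => a.ev x - b.ev x
  | mul a b => a.ev x * b.ev x

def v0 (x0 : ℕ → ℚ) : Ex → ℚ
  | var k => x0 k
  | add a b => a.v0 x0 + b.v0 x0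
  | sub a b => a.v0 x0 - b.v0 x0
  | mul a b => a.v0 x0 * b.v0 x0

def gr (x0 : ℕ → ℚ) (A : ℕ → ℚ) : Ex → ℚ
  | var k => A k
  | add a b => a.gr x0 A + b.gr x0 A
  | sub a b => a.gr x0 A - b.gr x0 A
  | mul a b => a.v0 x0 * b.gr x0 A + b.v0 x0 * a.gr x0 A

def lip (x0 : ℕ → ℚ) (l ρ : ℚ) : Ex → ℚ
  | var _ => l
  | add a b => a.lip x0 l ρ + b.lip x0 l ρ
  | sub a b => a.lip x0 l ρ + b.lip x0 l ρ
  | mul a b => (|a.v0 x0| + a.lip x0 l ρ * ρ) * b.lip x0 l ρ + (|b.v0 x0| + b.lip x0 l ρ * ρ) * a.lip x0 l ρ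

def rem (x0 : ℕ → ℚ) (l ρ : ℚ) : Ex → ℚ
  | var _ => 0
  | add a b => a.rem x0 l ρ + b.rem x0 l ρ
  | sub a b => a.rem x0 l ρ + b.rem x0 l ρ
  | mul a b => |a.v0 x0| * b.rem x0 l ρ + |b.v0 x0| * a.rem x0 l ρ + 2 * ρ * a.lip x0 l ρ * b.lip x0 l ρ

end Ex

section
variable {n : ℕ} (x0 : ℕ → ℚ) (A : ℕ → ℕ → ℚ) (l ρ : ℚ)

def pt (z : Fin n → ℝ) (k : ℕ) : ℝ := x0 k + ∑ m : Fin n, (A m k : ℝ) * z m

lemma ev_zero (e : Ex) : e.ev (pt x0 A (0 : Fin n → ℝ)) = e.v0 x0 := by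
  induction e with
  | var k => simp [Ex.ev, Ex.v0, pt]
  | add a b ha hb => simp [Ex.ev, Ex.v0, ha, hb]
  | sub a b ha hb => simp [Ex.ev, Ex.v0, ha, hb]
  | mul a b ha hb => simp [Ex.ev, Ex.v0, ha, hb]

lemma sum_le (c : Fin n → ℝ) (w : Fin n → ℝ) : |∑ m, c m * w m| ≤ (∑ m, |c m|) * ‖w‖ := by
  rw [Finset.sum_mul]
  refine (Finset.abs_sum_le_sum_abs _ _).trans (Finset.sum_le_sum fun m _ => ?_)
  rw [abs_mul]
  exact mul_le_mul_of_nonneg_left (norm_le_pi_norm w m) (abs_nonneg _)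

variable {x0 A l ρ}

lemma lip_nonneg (hl : 0 ≤ l) (hρ : 0 ≤ ρ) (e : Ex) : 0 ≤ e.lip x0 l ρ := by
  induction e with
  | var k => exact hl
  | add a b ha hb => simp only [Ex.lip]; positivity
  | sub a b ha hb => simp only [Ex.lip]; positivity
  | mul a b ha hb => simp only [Ex.lip]; positivity

lemma lip_sound (hl : 0 ≤ l) (hρ : 0 ≤ ρ) (hA : ∀ k, ∑ m : Fin n, |(A m k : ℝ)| ≤ l) (e : Ex) :
    ∀ z w : Fin n → ℝ, ‖z‖ ≤ ρ → ‖w‖ ≤ ρ →
      |e.ev (pt x0 A z) - e.ev (pt x0 A w)| ≤ e.lip x0 l ρ * ‖z - w‖ := by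
  induction e with
  | var k =>
    intro z w _ _
    have : pt x0 A z k - pt x0 A w k = ∑ m : Fin n, (A m k : ℝ) * (z - w) m := by
      simp only [pt, Pi.sub_apply, mul_sub, Finset.sum_sub_distrib]; ring
    simp only [Ex.ev, Ex.lip, this]
    exact (sum_le _ _).trans (mul_le_mul_of_nonneg_right (hA k) (norm_nonneg _))
  | add a b ha hb =>
    intro z w hz hw
    have h1 := ha z w hz hw
    have h2 := hb z w hz hw
    simp only [Ex.ev, Ex.lip]
    push_cast
    rw [abs_le] at *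
    constructor <;> linarith [h1.1, h1.2, h2.1, h2.2]
  | sub a b ha hb =>
    intro z w hz hw
    have h1 := ha z w hz hw
    have h2 := hb z w hz hw
    simp only [Ex.ev, Ex.lip]
    push_cast
    rw [abs_le] at *
    constructor <;> linarith [h1.1, h1.2, h2.1, h2.2]
  | mul a b ha hb =>
    intro z w hz hw
    have h0 : ‖(0 : Fin n → ℝ)‖ ≤ ρ := by simpa using hρ
    have h1 := ha z w hz hw
    have h2 := hb z w hz hw
    have h3 := ha z 0 hz h0
    have h4 := hb w 0 hw h0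
    have la : (0 : ℝ) ≤ a.lip x0 l ρ := by exact_mod_cast lip_nonneg hl hρ a
    have lb : (0 : ℝ) ≤ b.lip x0 l ρ := by exact_mod_cast lip_nonneg hl hρ b
    rw [ev_zero, sub_zero] at h3 h4
    have h5 : |a.ev (pt x0 A z)| ≤ |(a.v0 x0 : ℝ)| + a.lip x0 l ρ * ρ := by
      have := abs_sub_abs_le_abs_sub (a.ev (pt x0 A z)) (a.v0 x0 : ℝ)
      have := mul_le_mul_of_nonneg_left hz la
      linarith
    have h6 : |b.ev (pt x0 A w)| ≤ |(b.v0 x0 : ℝ)| + b.lip x0 l ρ * ρ := by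
      have := abs_sub_abs_le_abs_sub (b.ev (pt x0 A w)) (b.v0 x0 : ℝ)
      have := mul_le_mul_of_nonneg_left hw lb
      linarith
    simp only [Ex.ev, Ex.lip]
    push_cast
    rw [show a.ev (pt x0 A z) * b.ev (pt x0 A z) - a.ev (pt x0 A w) * b.ev (pt x0 A w)
      = a.ev (pt x0 A z) * (b.ev (pt x0 A z) - b.ev (pt x0 A w))
        + b.ev (pt x0 A w) * (a.ev (pt x0 A z) - a.ev (pt x0 A w)) by ring]
    refine (abs_add_le _ _).trans ?_
    rw [abs_mul, abs_mul]
    have h7 := mul_le_mul h5 h2 (abs_nonneg _) ((abs_nonneg _).trans h5)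
    have h8 := mul_le_mul h6 h1 (abs_nonneg _) ((abs_nonneg _).trans h6)
    linarith

lemma rem_sound (hl : 0 ≤ l) (hρ : 0 ≤ ρ) (hA : ∀ k, ∑ m : Fin n, |(A m k : ℝ)| ≤ l) (e : Ex) :
    ∀ z w : Fin n → ℝ, ‖z‖ ≤ ρ → ‖w‖ ≤ ρ →
      |e.ev (pt x0 A z) - e.ev (pt x0 A w) - ∑ m : Fin n, (e.gr x0 (A m) : ℝ) * (z - w) m|
        ≤ e.rem x0 l ρ * ‖z - w‖ := by
  induction e with
  | var k =>
    intro z w _ _
    have : pt x0 A z k - pt x0 A w k = ∑ m : Fin n, (A m k : ℝ) * (z - w) m := by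
      simp only [pt, Pi.sub_apply, mul_sub, Finset.sum_sub_distrib]; ring
    simp [Ex.ev, Ex.rem, Ex.gr, this]
  | add a b ha hb =>
    intro z w hz hw
    have h1 := ha z w hz hw
    have h2 := hb z w hz hw
    simp only [Ex.ev, Ex.rem, Ex.gr]
    push_cast
    simp only [add_mul, Finset.sum_add_distrib]
    rw [abs_le] at *
    constructor <;> linarith [h1.1, h1.2, h2.1, h2.2]
  | sub a b ha hb =>
    intro z w hz hw
    have h1 := ha z w hz hw
    have h2 := hb z w hz hw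
    simp only [Ex.ev, Ex.rem, Ex.gr]
    push_cast
    simp only [add_mul, sub_mul, Finset.sum_sub_distrib]
    rw [abs_le] at *
    constructor <;> linarith [h1.1, h1.2, h2.1, h2.2]
  | mul a b ha hb =>
    intro z w hz hw
    have h0 : ‖(0 : Fin n → ℝ)‖ ≤ ρ := by simpa using hρ
    have h1 := ha z w hz hw
    have h2 := hb z w hz hw
    have h3 := lip_sound (x0 := x0) hl hρ hA a z 0 hz h0
    have h4 := lip_sound (x0 := x0) hl hρ hA b w 0 hw h0
    have g1 := lip_sound (x0 := x0) hl hρ hA a z w hz hw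
    have g2 := lip_sound (x0 := x0) hl hρ hA b z w hz hw
    have la : (0 : ℝ) ≤ a.lip x0 l ρ := by exact_mod_cast lip_nonneg hl hρ a
    have lb : (0 : ℝ) ≤ b.lip x0 l ρ := by exact_mod_cast lip_nonneg hl hρ b
    rw [ev_zero, sub_zero] at h3 h4
    have h5 := h3.trans (mul_le_mul_of_nonneg_left hz la)
    have h6 := h4.trans (mul_le_mul_of_nonneg_left hw lb)
    simp only [Ex.ev, Ex.rem, Ex.gr]
    push_cast
    simp only [add_mul, Finset.sum_add_distrib, mul_assoc, ← Finset.mul_sum]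
    generalize ∑ m : Fin n, (a.gr x0 (A m) : ℝ) * (z - w) m = sa at *
    generalize ∑ m : Fin n, (b.gr x0 (A m) : ℝ) * (z - w) m = sb at *
    rw [show a.ev (pt x0 A z) * b.ev (pt x0 A z) - a.ev (pt x0 A w) * b.ev (pt x0 A w)
        - ((a.v0 x0 : ℝ) * sb + (b.v0 x0 : ℝ) * sa)
      = (a.v0 x0 : ℝ) * (b.ev (pt x0 A z) - b.ev (pt x0 A w) - sb)
        + (b.v0 x0 : ℝ) * (a.ev (pt x0 A z) - a.ev (pt x0 A w) - sa)
        + ((a.ev (pt x0 A z) - a.v0 x0) * (b.ev (pt x0 A z) - b.ev (pt x0 A w))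
        + (b.ev (pt x0 A w) - b.v0 x0) * (a.ev (pt x0 A z) - a.ev (pt x0 A w))) by ring]
    refine (abs_add_le _ _).trans (add_le_add ((abs_add_le _ _).trans ?_) ((abs_add_le _ _).trans ?_))
    · rw [abs_mul, abs_mul]
      exact add_le_add (mul_le_mul_of_nonneg_left h2 (abs_nonneg _))
        (mul_le_mul_of_nonneg_left h1 (abs_nonneg _))
    · rw [abs_mul, abs_mul]
      have h7 := mul_le_mul h5 g2 (abs_nonneg _) ((abs_nonneg _).trans h5)
      have h8 := mul_le_mul h6 g1 (abs_nonneg _) ((abs_nonneg _).trans h6)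
      linarith

theorem newton (hl : 0 ≤ l) (hρ : 0 ≤ ρ) (hA : ∀ k, ∑ m : Fin n, |(A m k : ℝ)| ≤ l) (F : Fin n → Ex)
    (h1 : ∀ i, |(F i).v0 x0| ≤ ρ / 2)
    (h2 : ∀ i, ∑ m : Fin n, |(if m = i then 1 else 0) - (F i).gr x0 (A m)| + (F i).rem x0 l ρ ≤ 1 / 2) :
    ∃ z : Fin n → ℝ, ‖z‖ ≤ ρ ∧ ∀ i, (F i).ev (pt x0 A z) = 0 := by
  let T : (Fin n → ℝ) → Fin n → ℝ := fun z i => z i - (F i).ev (pt x0 A z)
  have hρ' : (0 : ℝ) ≤ ρ := by exact_mod_cast hρ
  have h0 : ‖(0 : Fin n → ℝ)‖ ≤ ρ := by simpa using hρ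
  have key : ∀ z w : Fin n → ℝ, ‖z‖ ≤ ρ → ‖w‖ ≤ ρ → ‖T z - T w‖ ≤ 1 / 2 * ‖z - w‖ := by
    intro z w hz hw
    rw [pi_norm_le_iff_of_nonneg (by positivity)]
    intro i
    have a1 := rem_sound (x0 := x0) hl hρ hA (F i) z w hz hw
    have a2 := sum_le (fun m : Fin n => (if m = i then 1 else 0) - ((F i).gr x0 (A m) : ℝ)) (z - w)
    have a3 : ∑ m : Fin n, |(if m = i then 1 else 0) - ((F i).gr x0 (A m) : ℝ)|
        + ((F i).rem x0 l ρ : ℝ) ≤ 1 / 2 := by
      have := (Rat.cast_le (K := ℝ)).2 (h2 i)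
      push_cast [apply_ite] at this
      simpa using this
    have a4 := mul_le_mul_of_nonneg_right a3 (norm_nonneg (z - w))
    simp only [sub_mul, Finset.sum_sub_distrib, ite_mul, one_mul, zero_mul, Finset.sum_ite_eq',
      Finset.mem_univ, if_true] at a2
    rw [Real.norm_eq_abs]
    simp only [T, Pi.sub_apply] at *
    rw [abs_le] at *
    constructor <;> linarith [a1.1, a1.2, a2.1, a2.2]
  have hT0 : ‖T 0‖ ≤ ρ / 2 := by
    rw [pi_norm_le_iff_of_nonneg (by positivity)]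
    intro i
    have := (Rat.cast_le (K := ℝ)).2 (h1 i)
    simp only [T, ev_zero, Pi.zero_apply, zero_sub, norm_neg, Real.norm_eq_abs]
    push_cast at this
    exact this
  have hm : Set.MapsTo T (Metric.closedBall 0 ρ) (Metric.closedBall 0 ρ) := by
    intro z hz
    rw [mem_closedBall_zero_iff] at *
    have := key z 0 hz h0
    have h3 := norm_sub_norm_le (T z) (T 0)
    rw [sub_zero] at this
    linarith
  have hc : ContractingWith (1 / 2 : NNReal) (hm.restrict T _ _) := by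
    refine ⟨by norm_num, LipschitzWith.of_dist_le_mul fun z w => ?_⟩
    have := key z w (mem_closedBall_zero_iff.1 z.2) (mem_closedBall_zero_iff.1 w.2)
    simpa [Subtype.dist_eq, dist_eq_norm] using this
  obtain ⟨z, hz, hf, -⟩ := hc.exists_fixedPoint' Metric.isClosed_closedBall.isComplete hm
    (Metric.mem_closedBall_self hρ') (edist_ne_top _ _)
  refine ⟨z, mem_closedBall_zero_iff.1 hz, fun i => ?_⟩
  have := congrFun hf i
  simp only [T] at this
  linarith

lemma ne_zero_of_lip (hl : 0 ≤ l) (hρ : 0 ≤ ρ) (hA : ∀ k, ∑ m : Fin n, |(A m k : ℝ)| ≤ l) (e : Ex)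
    (h : e.lip x0 l ρ * ρ < |e.v0 x0|) {z : Fin n → ℝ} (hz : ‖z‖ ≤ ρ) : e.ev (pt x0 A z) ≠ 0 := by
  intro h0
  have h1 := lip_sound (x0 := x0) hl hρ hA e z 0 hz (by simpa using hρ)
  have la : (0 : ℝ) ≤ e.lip x0 l ρ := by exact_mod_cast lip_nonneg hl hρ e
  rw [h0, ev_zero, sub_zero, zero_sub, abs_neg] at h1
  have h2 := h1.trans (mul_le_mul_of_nonneg_left hz la)
  have h3 := (Rat.cast_lt (K := ℝ)).2 h
  push_cast at h3
  linarith

end

end Pool.Agent.MP_e7f0cc_co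

end

section

/-! Seven lines at pairwise distance one. -/

namespace Pool.Agent.MP_e7f0cc_co

def xs : List ℤ := [134612485, -14116763767, 5320045562, 23005963241, -5573034542, 13276852204, -2383526099, 9136631613, 7487868016, 2525619035, 2997574745, -10889813124, -632351392, -1651629757, -1791833365, -24677145921, 2194641157, 3677952992, 10157880621, -23494394941, 1410706796, 12397282200, -4603000876, 25531861462, 7700601513, -12062199371, -9697140588, 1386897669]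

def as : List (List ℤ) := [
  [223, 756, 241, 432, 678, -727, -252, 56, 20, 76, -73, 154, 361, 407, -162, 312, 260, -20, -67, 222, 352, -550, 189, -474, -205, 1394, 123, -702],
  [132, -2765, -422, 488, -2614, 3287, -44, 233, 1359, -1508, -39, -1286, -283, -2469, 1138, -1086, 46, -795, 145, -1834, -224, 1930, -372, 2379, 900, -3860, -407, 1105],
  [-603, 1859, 553, -1230, 1307, -2978, 260, -1389, -98, 1328, 72, 1647, -918, 2594, -1944, 2894, -338, 573, -98, 3015, -297, 154, 535, -3053, -594, 2907, 622, -1884],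
  [-900, 3801, 772, -1053, 3329, -5072, 58, -1166, -996, 2146, 46, 2258, -170, 3973, -2272, 3140, -67, 997, -155, 3714, 203, -1644, 750, -4299, -1160, 5915, 801, -2594],
  [-398, -800, 256, -440, -835, 710, 85, -162, 166, -93, 25, -114, -403, -416, 132, -118, -246, -22, 97, -66, -401, 739, -386, 385, 317, -1350, -209, 515],
  [91, 2243, 32, 244, 1291, -1267, 17, 357, -1055, 635, 211, 294, 292, 741, -301, -569, -87, 398, -79, 264, 70, -1362, 1, -551, -297, 830, 119, -39],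
  [474, -653, -327, 626, -337, 632, -211, 1278, -248, -883, -110, -1715, 208, -789, 850, -1486, 40, -791, 490, -1844, -134, 150, -340, 1666, 128, -1421, -350, 1474],
  [327, -1107, -276, 240, -1509, 1923, 105, 258, 121, -603, 229, -908, 198, -632, 195, -1091, 160, -543, 240, -848, 59, 39, -265, 1331, 519, -1841, -229, 1018],
  [-1043, 866, 513, -1287, 207, -2234, 91, -1221, 211, 1437, -72, 2187, -763, 1002, -829, 2036, -414, 1405, -654, 2135, -216, 624, 572, -2464, -354, 1503, 379, -1388],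
  [929, 1996, -156, 1251, 2748, -3685, 687, -1992, -502, -476, -260, -111, 1097, 663, -333, 224, 616, -684, -172, 11, 741, -1437, -176, 2258, -919, 3515, 410, -1641],
  [207, 1231, 216, 385, 1314, -1284, 275, -144, 5, 296, -151, 609, 415, 717, -438, 761, 293, 137, -246, 734, 432, -793, 152, -928, -359, 2322, 192, -1416],
  [463, 1935, -20, 627, 2358, -2439, -211, 1239, -393, -1090, -593, 1301, 479, 2010, 95, -1812, -145, 106, 746, -1369, -144, -1421, -110, -309, -891, 2382, 94, 323],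
  [1740, -16577, -2788, 2926, -15168, 19493, -539, 3384, 5442, -6093, -618, -5441, -1020, -16059, 8158, -10319, 403, -6930, 1589, -15866, -1370, 10303, -2519, 15915, 4909, -24957, -3282, 9400],
  [-561, 2846, 621, -754, 2391, -3375, 198, -1050, -154, 2058, -154, 1954, -12, 2693, -1579, 2179, -186, 1232, -438, 3133, 172, -1925, 589, -3272, -1010, 4491, 764, -2191],
  [-149, 5541, 555, -502, 5106, -6322, -134, 102, -2310, 2270, 1192, 1631, 596, 4710, -2119, 1521, -178, 1207, -357, 2656, 314, -3917, 449, -4055, -2057, 7435, 413, -1353],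
  [7259, -9205, -4585, 9152, -4151, 15307, -1675, 10993, -87, -11580, 876, -11347, 4789, -10735, 6666, -11812, 2115, -3352, 6613, -27885, 1018, -4271, -4942, 19288, 3790, -15153, -2952, 11610],
  [995, -2650, -804, 1289, -2199, 4181, -210, 1534, 231, -1823, 214, -2452, 347, -2460, 1854, -2711, 495, -942, 496, -3966, 347, -225, -797, 3866, 1076, -4213, -752, 2442],
  [418, -902, -296, 793, -967, 1896, -1, 818, 118, -676, -10, -759, 294, -2467, 767, -2811, 214, -320, 195, -1409, 154, 73, -290, 1914, 402, -1587, -365, 1454],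
  [-2412, 3936, 1481, -2959, 2620, -6509, 238, -3105, -248, 3827, -421, 4475, -1353, 4360, -3171, 4908, -1436, 2139, -661, 7502, -64, 267, 1590, -6854, -1464, 6266, 944, -3967],
  [258, -4527, -616, 463, -4316, 5534, -73, 532, 1455, -1830, -468, -1758, -404, -4565, 2048, -3001, 69, -933, 606, -2766, -360, 2859, -514, 4062, 1104, -6936, -983, 2469],
  [-222, -1799, -152, -250, -1834, 1958, -148, 158, 242, -589, 27, -721, -479, -1246, 681, -827, -265, -298, 283, -982, -434, 1169, -75, 1378, 772, -2900, -616, 1244]]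

def X0 (k : ℕ) : ℚ := (xs.getD k 0 : ℚ) / 10000000000

def AA (m k : ℕ) : ℚ := if k < 28 then ((as.getD m []).getD k 0 : ℚ) / 10000 else 0

def rEx (i j : ℕ) : Ex :=
  .add (.mul (.sub (.var (4 * j + 2)) (.var (4 * i + 2))) (.sub (.var (4 * i + 1)) (.var (4 * j + 1))))
    (.mul (.sub (.var (4 * j + 3)) (.var (4 * i + 3))) (.sub (.var (4 * j)) (.var (4 * i))))

def sqEx (e : Ex) : Ex := .mul e e

def fEx (i j : ℕ) : Ex :=
  .sub (sqEx (rEx i j)) (.add (.add (sqEx (.sub (.var (4 * i + 1)) (.var (4 * j + 1))))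
    (sqEx (.sub (.var (4 * j)) (.var (4 * i)))))
    (sqEx (.sub (.mul (.var (4 * i)) (.var (4 * j + 1))) (.mul (.var (4 * i + 1)) (.var (4 * j))))))

def prs : List (ℕ × ℕ) := [(0, 1), (0, 2), (0, 3), (0, 4), (0, 5), (0, 6), (1, 2), (1, 3), (1, 4), (1, 5),
  (1, 6), (2, 3), (2, 4), (2, 5), (2, 6), (3, 4), (3, 5), (3, 6), (4, 5), (4, 6), (5, 6)]

def FF (e : Fin 21) : Ex := fEx (prs.getD e (0, 0)).1 (prs.getD e (0, 0)).2

lemma chkA : ∀ k < 28, ∑ m : Fin 21, |AA m k| ≤ 11 := by decide +kernel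

lemma chk1 : ∀ i, |(FF i).v0 X0| ≤ (1 / 10000000 : ℚ) / 2 := by decide +kernel

lemma chk2 : ∀ i, ∑ m : Fin 21, |(if m = i then 1 else 0) - (FF i).gr X0 (AA m)|
    + (FF i).rem X0 11 (1 / 10000000) ≤ 1 / 2 := by decide +kernel

lemma chk3 : ∀ i j : Fin 7, i ≠ j →
    (rEx i j).lip X0 11 (1 / 10000000) * (1 / 10000000) < |(rEx i j).v0 X0| := by decide +kernel

lemma chk4 : ∀ i j : Fin 7, i < j → ∃ e : Fin 21, prs.getD e (0, 0) = (i.1, j.1) := by decide +kernel

lemma hAA : ∀ k, ∑ m : Fin 21, |(AA m k : ℝ)| ≤ ((11 : ℚ) : ℝ) := by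
  intro k
  by_cases hk : k < 28
  · have := (Rat.cast_le (K := ℝ)).2 (chkA k hk)
    push_cast at this ⊢
    exact this
  · simp [AA, hk]

theorem seven_param : ∃ p u : Fin 7 → E3, ∀ i j, i ≠ j → cr (u i) (u j) ≠ 0 ∧
    |dt (p j - p i) (cr (u i) (u j))| = ‖cr (u i) (u j)‖ := by
  obtain ⟨z, hz, hF⟩ := newton (x0 := X0) (by norm_num) (by norm_num) hAA FF chk1 chk2
  set x := pt X0 AA z with hx
  let p : Fin 7 → E3 := fun i => !₂[x (4 * i + 2), x (4 * i + 3), 0]
  let u : Fin 7 → E3 := fun i => !₂[x (4 * i), x (4 * i + 1), 1]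
  have hr : ∀ i j : Fin 7, dt (p j - p i) (cr (u i) (u j)) = (rEx i j).ev x := by
    intro i j
    simp [p, u, dt, rEx, Ex.ev]
  have hf : ∀ i j : Fin 7, dt (p j - p i) (cr (u i) (u j)) ^ 2 - ‖cr (u i) (u j)‖ ^ 2 = (fEx i j).ev x := by
    intro i j
    rw [hr, nsq]
    simp [u, dt, fEx, sqEx, Ex.ev, sq]
  have hlt : ∀ i j : Fin 7, i < j → (fEx i j).ev x = 0 := by
    intro i j hij
    obtain ⟨e, he⟩ := chk4 i j hij
    have := hF e
    simpa only [FF, he] using this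
  have hall : ∀ i j : Fin 7, i ≠ j → dt (p j - p i) (cr (u i) (u j)) ^ 2 = ‖cr (u i) (u j)‖ ^ 2 := by
    intro i j hij
    rcases lt_or_gt_of_ne hij with h | h
    · have := hf i j
      rw [hlt i j h] at this
      linarith
    · have := hf j i
      rw [hlt j i h] at this
      simp only [nsq, dt, cr0, cr1, cr2, PiLp.sub_apply] at this ⊢
      linear_combination this
  refine ⟨p, u, fun i j hij => ?_⟩
  have h1 : dt (p j - p i) (cr (u i) (u j)) ≠ 0 := by
    rw [hr]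
    exact ne_zero_of_lip (by norm_num) (by norm_num) hAA _ (chk3 i j hij) hz
  have h2 := hall i j hij
  have h3 : |dt (p j - p i) (cr (u i) (u j))| = ‖cr (u i) (u j)‖ := by
    rw [← sq_abs] at h2
    exact (pow_left_inj₀ (abs_nonneg _) (norm_nonneg _) two_ne_zero).1 h2
  refine ⟨fun h0 => h1 ?_, h3⟩
  rw [h0] at h3 ⊢
  simpa using h3

theorem lower : ∃ ℓ : Fin 7 → AffineSubspace ℝ E3, (∀ i, Module.finrank ℝ (ℓ i).direction = 1) ∧
    Function.Injective ℓ ∧
    ∀ i j, i ≠ j → sInf {d | ∃ x ∈ ℓ i, ∃ y ∈ ℓ j, d = dist x y} = 1 := by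
  obtain ⟨p, u, h⟩ := seven_param
  have hu : ∀ i, u i ≠ 0 := by
    intro i h0
    obtain ⟨j, hj⟩ := exists_ne i
    apply (h i j hj.symm).1
    rw [h0]
    apply ext3 <;> simp
  have hm : ∀ i x, x ∈ AffineSubspace.mk' (p i) (Submodule.span ℝ {u i}) ↔ ∃ s : ℝ, x = p i + s • u i := by
    intro i x
    rw [AffineSubspace.mem_mk', Submodule.mem_span_singleton, vsub_eq_sub]
    constructor
    · rintro ⟨s, hs⟩; exact ⟨s, by rw [hs]; abel⟩
    · rintro ⟨s, rfl⟩; exact ⟨s, by abel⟩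
  have hl : ∀ i j, i ≠ j → IsLeast {d | ∃ x ∈ AffineSubspace.mk' (p i) (Submodule.span ℝ {u i}),
      ∃ y ∈ AffineSubspace.mk' (p j) (Submodule.span ℝ {u j}), d = dist x y} 1 := by
    intro i j hij
    have := skew_least (p i) (p j) (h i j hij).1
    rwa [(h i j hij).2, div_self (norm_pos_iff.2 (h i j hij).1).ne', ← dset_eq (hm i) (hm j)] at this
  refine ⟨fun i => AffineSubspace.mk' (p i) (Submodule.span ℝ {u i}), fun i => ?_, fun i j he => ?_,
    fun i j hij => (hl i j hij).csInf_eq⟩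
  · rw [AffineSubspace.direction_mk']
    exact finrank_span_singleton (hu i)
  · by_contra hij
    have h1 : (1 : ℝ) ≤ 0 := (hl i j hij).2 ⟨p i, AffineSubspace.self_mem_mk' _ _, p i,
      (by beta_reduce at he; rw [← he]; exact AffineSubspace.self_mem_mk' _ _), (dist_self _).symm⟩
    norm_num at h1

end Pool.Agent.MP_e7f0cc_co

end
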